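import Pool.Agent.helper53.ORT.Spec

set_option autoImplicit false

namespace Pool.Agent.ORT

open Module Pool.Agent.GS

theorem WB_sq {F : Type} [Field F] [Finite F] (hF : ringChar F ≠ 2) {a b : F}
    (ha : ¬ IsSquare a) (hb : ¬ IsSquare b) : IsSquare (a * b) := by
  classical
  haveI := Fintype.ofFinite F
  by_contra h
  rw [← quadraticChar_neg_one_iff_not_isSquare] at ha hb h
  rw [map_mul, ha, hb] at h
  norm_num at h

theorem WB (ro : RO_stmt) : WB_stmt := by
  intro F V _ _ _ _ B hF hB e₁ e₂ h1 h2 h12 hns g hg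
  set a := rf B e₁ with ha
  set b := rf B e₂ with hb
  have haa : a * a = 1 := rf_sq e₁
  have hbb : b * b = 1 := rf_sq e₂
  have hab : a * b = b * a := rf_comm hB h12
  have hma : a ∈ SpG B := rf_mem hB e₁
  have hmb : b ∈ SpG B := rf_mem hB e₂
  let T : Equiv.Perm V → Prop := fun s => s = 1 ∨ s = a ∨ s = b ∨ s = a * b
  have hTm : ∀ s, T s → s ∈ SpG B := by
    rintro s (rfl | rfl | rfl | rfl)
    · exact (SpG B).one_mem
    · exact hma
    · exact hmb
    · exact (SpG B).mul_mem hma hmb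
  have hTsq : ∀ s, T s → s * s = 1 := by
    rintro s (rfl | rfl | rfl | rfl)
    · exact one_mul 1
    · exact haa
    · exact hbb
    · calc a * b * (a * b) = a * (b * a) * b := by simp only [mul_assoc]
        _ = a * (a * b) * b := by rw [← hab]
        _ = (a * a) * (b * b) := by simp only [mul_assoc]
        _ = 1 := by rw [haa, hbb, one_mul]
  have hT2 : ∀ s t, T s → T t → T (s * t) := by
    rintro s t (rfl | rfl | rfl | rfl) (rfl | rfl | rfl | rfl)
    · exact Or.inl (one_mul 1)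
    · exact Or.inr (Or.inl (one_mul _))
    · exact Or.inr (Or.inr (Or.inl (one_mul _)))
    · exact Or.inr (Or.inr (Or.inr (one_mul _)))
    · exact Or.inr (Or.inl (mul_one _))
    · exact Or.inl haa
    · exact Or.inr (Or.inr (Or.inr rfl))
    · exact Or.inr (Or.inr (Or.inl (by rw [← mul_assoc, haa, one_mul])))
    · exact Or.inr (Or.inr (Or.inl (mul_one _)))
    · exact Or.inr (Or.inr (Or.inr hab.symm))
    · exact Or.inl hbb
    · exact Or.inr (Or.inl (by rw [hab, ← mul_assoc, hbb, one_mul]))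
    · exact Or.inr (Or.inr (Or.inr (mul_one _)))
    · exact Or.inr (Or.inr (Or.inl (by rw [hab, mul_assoc, haa, mul_one])))
    · exact Or.inr (Or.inl (by rw [mul_assoc, hbb, mul_one]))
    · exact Or.inl (hTsq _ (Or.inr (Or.inr (Or.inr rfl))))
  suffices h : g ∈ SpG B ∧ ∃ s, T s ∧ s * g ∈ Om B from h.2
  induction hg using Subgroup.closure_induction with
  | mem x hx =>
    obtain ⟨c, rfl⟩ := hx
    refine ⟨rf_mem hB c, ?_⟩
    by_cases hc : B c c ≠ 0
    · by_cases hs : IsSquare (B e₁ e₁ * B c c)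
      · exact ⟨a, Or.inr (Or.inl rfl), ro B hF hB e₁ c h1 hc hs⟩
      · by_cases hs2 : IsSquare (B e₂ e₂ * B c c)
        · exact ⟨b, Or.inr (Or.inr (Or.inl rfl)), ro B hF hB e₂ c h2 hc hs2⟩
        · exfalso
          apply hns
          obtain ⟨t, ht⟩ := WB_sq hF hs hs2
          refine ⟨t / B c c, ?_⟩
          field_simp
          linear_combination ht
    · refine ⟨1, Or.inl rfl, ?_⟩
      have : rf B c = 1 := by
        unfold rf
        rw [dif_neg hc]
      rw [this, one_mul]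
      exact (Om B).one_mem
  | one => exact ⟨(SpG B).one_mem, 1, Or.inl rfl, by rw [one_mul]; exact (Om B).one_mem⟩
  | mul x y _ _ hx hy =>
    obtain ⟨hx1, s, hs, hsx⟩ := hx
    obtain ⟨hy1, t, ht, hty⟩ := hy
    refine ⟨(SpG B).mul_mem hx1 hy1, s * t, hT2 s t hs ht, ?_⟩
    have h3 : x⁻¹ * t * (x⁻¹)⁻¹ * t⁻¹ ∈ Om B :=
      Subgroup.commutator_mem_commutator ((SpG B).inv_mem hx1) (hTm t ht)
    have h4 := (Om B).mul_mem ((Om B).mul_mem hsx h3) hty
    have h5 : s * x * (x⁻¹ * t * (x⁻¹)⁻¹ * t⁻¹) * (t * y) = s * t * (x * y) := by group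
    rwa [h5] at h4
  | inv x _ hx =>
    obtain ⟨hx1, s, hs, hsx⟩ := hx
    refine ⟨(SpG B).inv_mem hx1, s, hs, ?_⟩
    have h3 : s * (s * x)⁻¹ * s⁻¹ ∈ Om B := Om_conj (hTm s hs) ((Om B).inv_mem hsx)
    have h4 : s * (s * x)⁻¹ * s⁻¹ = s * x⁻¹ := by
      have h6 : s⁻¹ * s⁻¹ = 1 := by
        rw [← mul_inv_rev, hTsq s hs, inv_one]
      calc s * (s * x)⁻¹ * s⁻¹ = s * x⁻¹ * (s⁻¹ * s⁻¹) := by group
        _ = s * x⁻¹ := by rw [h6, mul_one]
    rwa [h4] at h3

end Pool.Agent.ORT
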